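import Mathlib

/-!
# Point-countable `π`-bases of `C_p(X)`: the basic sets and the refinement
-/

set_option autoImplicit false

namespace Pool.Agent.R828.CP

open Set Topology Cardinal Filter

/-- the set of functions is open in the topology of pointwise convergence -/
def POpen {X : Type} [TopologicalSpace X] (B : Set C(X, ℝ)) : Prop :=
  @IsOpen C(X, ℝ) (TopologicalSpace.induced (fun f : C(X, ℝ) => (f : X → ℝ)) inferInstance) B

/-- `C_p(X)` has a point-countable `π`-base -/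
def HasBase (X : Type) [TopologicalSpace X] : Prop :=
  ∃ 𝓑 : Set (Set C(X, ℝ)), (∀ B ∈ 𝓑, POpen B ∧ B.Nonempty) ∧
    (∀ U : Set C(X, ℝ), POpen U → U.Nonempty → ∃ B ∈ 𝓑, B ⊆ U) ∧
    (∀ f : C(X, ℝ), {B ∈ 𝓑 | f ∈ B}.Countable)

variable {X : Type} [TopologicalSpace X]

theorem POpen.inter {A B : Set C(X, ℝ)} (hA : POpen A) (hB : POpen B) : POpen (A ∩ B) :=
  (TopologicalSpace.induced (fun f : C(X, ℝ) => (f : X → ℝ)) inferInstance).isOpen_inter A B hA hB

theorem popen_preimage {V : Set (X → ℝ)} (hV : IsOpen V) :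
    POpen ((fun f : C(X, ℝ) => (f : X → ℝ)) ⁻¹' V) :=
  isOpen_induced_iff.2 ⟨V, hV, rfl⟩

/-- basic sets -/
def nb (i : Finset (X × ℚ) × ℕ) : Set C(X, ℝ) :=
  {f | ∀ p ∈ i.1, |f p.1 - (p.2 : ℝ)| < 1 / ((i.2 : ℝ) + 1)}

theorem popen_nb (i : Finset (X × ℚ) × ℕ) : POpen (nb i) := by
  have h : nb i = (fun f : C(X, ℝ) => (f : X → ℝ)) ⁻¹'
      (⋂ p ∈ i.1, {g : X → ℝ | |g p.1 - (p.2 : ℝ)| < 1 / ((i.2 : ℝ) + 1)}) := by
    ext f
    simp [nb]
  rw [h]
  apply popen_preimage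
  refine isOpen_biInter_finset (fun p _ => ?_)
  exact isOpen_lt (by fun_prop) continuous_const

theorem exists_nb {U : Set C(X, ℝ)} (hU : POpen U) (hn : U.Nonempty) :
    ∃ i : Finset (X × ℚ) × ℕ, (nb i).Nonempty ∧ nb i ⊆ U := by
  classical
  obtain ⟨f, hf⟩ := hn
  obtain ⟨V, hV, hVU⟩ := isOpen_induced_iff.1 hU
  have hfV : (f : X → ℝ) ∈ V := by
    have : f ∈ (fun f : C(X, ℝ) => (f : X → ℝ)) ⁻¹' V := by rw [hVU]; exact hf
    exact this
  obtain ⟨I, u, hu, hIV⟩ := isOpen_pi_iff.1 hV f hfV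
  have h1 : ∀ a ∈ I, ∀ᶠ n : ℕ in atTop, Metric.ball (f a) (2 / ((n : ℝ) + 1)) ⊆ u a := by
    intro a ha
    obtain ⟨ε, hε, hb⟩ := Metric.isOpen_iff.1 (hu a ha).1 (f a) (hu a ha).2
    have h2 : Tendsto (fun n : ℕ => 2 * (1 / ((n : ℝ) + 1))) atTop (𝓝 (2 * 0)) :=
      tendsto_one_div_add_atTop_nhds_zero_nat.const_mul 2
    rw [mul_zero] at h2
    filter_upwards [h2.eventually (gt_mem_nhds hε)] with n hn
    refine (Metric.ball_subset_ball ?_).trans hb
    have h3 : 2 / ((n : ℝ) + 1) = 2 * (1 / ((n : ℝ) + 1)) := by ring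
    rw [h3]
    exact hn.le
  obtain ⟨n, hn⟩ := ((eventually_all_finset I).2 h1).exists
  have hpos : (0 : ℝ) < 1 / ((n : ℝ) + 1) := by positivity
  have h4 : ∀ a : X, ∃ q : ℚ, |f a - (q : ℝ)| < 1 / ((n : ℝ) + 1) := by
    intro a
    obtain ⟨q, hq1, hq2⟩ := exists_rat_btwn (show f a < f a + 1 / ((n : ℝ) + 1) by linarith)
    refine ⟨q, ?_⟩
    rw [abs_lt]
    constructor <;> linarith
  choose q hq using h4
  refine ⟨(I.image (fun a => (a, q a)), n), ⟨f, ?_⟩, ?_⟩
  · intro p hp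
    obtain ⟨a, _, rfl⟩ := Finset.mem_image.1 hp
    exact hq a
  · intro g hg
    have : g ∈ (fun f : C(X, ℝ) => (f : X → ℝ)) ⁻¹' V := by
      apply hIV
      intro a ha
      apply hn a ha
      rw [Metric.mem_ball, Real.dist_eq]
      have h5 := hg (a, q a) (Finset.mem_image.2 ⟨a, ha, rfl⟩)
      have h6 := hq a
      simp only at h5
      have h7 : (g a - f a : ℝ) = (g a - q a) - (f a - q a) := by ring
      have h8 : (2 : ℝ) / ((n : ℝ) + 1) = 1 / ((n : ℝ) + 1) + 1 / ((n : ℝ) + 1) := by ring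
      rw [h7, h8]
      exact (abs_sub _ _).trans_lt (add_lt_add h5 h6)
    rw [hVU] at this
    exact this

/-- countable spaces -/
theorem hasBase_of_countable [Countable X] : HasBase X := by
  refine ⟨{B | ∃ i : Finset (X × ℚ) × ℕ, (nb i).Nonempty ∧ B = nb i}, ?_, ?_, ?_⟩
  · rintro B ⟨i, hi, rfl⟩
    exact ⟨popen_nb i, hi⟩
  · intro U hU hn
    obtain ⟨i, hi, hiU⟩ := exists_nb hU hn
    exact ⟨nb i, ⟨i, hi, rfl⟩, hiU⟩
  · intro f
    refine (countable_range (fun i : Finset (X × ℚ) × ℕ => nb i)).mono ?_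
    rintro B ⟨⟨i, _, rfl⟩, _⟩
    exact ⟨i, rfl⟩

/-- the criterion: many pairs `(d, r d)` which are almost not separated by continuous functions -/
theorem hasBase_of_pairs [T2Space X] [CompactSpace X] (D : Set X) (hX : ℵ₀ ≤ #X) (hD : #X ≤ #D)
    (r : X → X) (hr : ∀ d ∈ D, r d ≠ d)
    (hc : ∀ f : C(X, ℝ), {d ∈ D | 1 < |f d - f (r d)|}.Countable) : HasBase X := by
  classical
  have hinf : Infinite X := Cardinal.infinite_iff.2 hX
  -- indices
  have hcard : #((Finset (X × ℚ) × ℕ) × ℕ) ≤ #D := by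
    refine le_trans ?_ hD
    have h1 : #(X × ℚ) = #X := by
      rw [mk_prod, lift_id, lift_id, Cardinal.mkRat]
      exact mul_eq_left hX hX aleph0_ne_zero
    have h2 : Infinite (X × ℚ) := inferInstance
    rw [mk_prod, mk_prod, mk_finset_of_infinite, h1]
    simp only [lift_id, mk_nat]
    rw [mul_eq_left hX hX aleph0_ne_zero, mul_eq_left hX hX aleph0_ne_zero]
  obtain ⟨ψ⟩ := (Cardinal.le_def _ _).1 hcard
  have hφ : ∀ i : Finset (X × ℚ) × ℕ, ∃ n : ℕ, ((ψ (i, n) : D) : X) ∉ i.1.image Prod.fst := by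
    intro i
    by_contra hcon
    push Not at hcon
    have h1 : (Set.range (fun n : ℕ => ((ψ (i, n) : D) : X))).Infinite := by
      apply Set.infinite_range_of_injective
      intro m n hmn
      have h2 := ψ.injective (Subtype.ext hmn)
      exact (Prod.ext_iff.1 h2).2
    apply h1
    refine (i.1.image Prod.fst).finite_toSet.subset ?_
    rintro _ ⟨n, rfl⟩
    exact hcon n
  choose ν hν using hφ
  set φ : Finset (X × ℚ) × ℕ → X := fun i => ((ψ (i, ν i) : D) : X) with hφdef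
  have hφD : ∀ i, φ i ∈ D := fun i => (ψ (i, ν i)).2
  have hφinj : Function.Injective φ := by
    intro i j hij
    have h2 := ψ.injective (Subtype.ext hij)
    exact (Prod.ext_iff.1 h2).1
  let S : Finset (X × ℚ) × ℕ → Set C(X, ℝ) := fun i => nb i ∩ {f | 1 < |f (φ i) - f (r (φ i))|}
  have hSopen : ∀ i, POpen (S i) := by
    intro i
    refine (popen_nb i).inter ?_
    have : {f : C(X, ℝ) | 1 < |f (φ i) - f (r (φ i))|} = (fun f : C(X, ℝ) => (f : X → ℝ)) ⁻¹'
        {g : X → ℝ | 1 < |g (φ i) - g (r (φ i))|} := rfl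
    rw [this]
    apply popen_preimage
    exact isOpen_lt continuous_const (by fun_prop)
  have hSne : ∀ i, (nb i).Nonempty → (S i).Nonempty := by
    rintro i ⟨f₀, hf₀⟩
    have hclosed : IsClosed ((insert (r (φ i)) (i.1.image Prod.fst) : Finset X) : Set X) :=
      Finset.isClosed _
    have hdisj : Disjoint ((insert (r (φ i)) (i.1.image Prod.fst) : Finset X) : Set X)
        {φ i} := by
      rw [Set.disjoint_singleton_right, Finset.mem_coe, Finset.mem_insert, not_or]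
      exact ⟨fun h => hr _ (hφD i) h.symm, hν i⟩
    obtain ⟨e, he0, he1, -⟩ := exists_continuous_zero_one_of_isClosed hclosed
      (isClosed_singleton (x := φ i)) hdisj
    refine ⟨f₀ + (2 - (f₀ (φ i) - f₀ (r (φ i)))) • e, ?_, ?_⟩
    · intro p hp
      have h1 : e p.1 = 0 := he0 (by
        rw [Finset.mem_coe, Finset.mem_insert]
        exact Or.inr (Finset.mem_image.2 ⟨p, hp, rfl⟩))
      simp only [ContinuousMap.add_apply, ContinuousMap.smul_apply, smul_eq_mul, h1, mul_zero,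
        add_zero]
      exact hf₀ p hp
    · have h1 : e (r (φ i)) = 0 := he0 (by
        rw [Finset.mem_coe, Finset.mem_insert]
        exact Or.inl rfl)
      have h2 : e (φ i) = 1 := he1 rfl
      simp only [Set.mem_ofPred_eq, ContinuousMap.add_apply, ContinuousMap.smul_apply, smul_eq_mul,
        h1, h2, mul_zero, add_zero, mul_one]
      have h3 : f₀ (φ i) + (2 - (f₀ (φ i) - f₀ (r (φ i)))) - f₀ (r (φ i)) = 2 := by ring
      rw [h3]
      norm_num
  refine ⟨{B | ∃ i, (nb i).Nonempty ∧ B = S i}, ?_, ?_, ?_⟩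
  · rintro B ⟨i, hi, rfl⟩
    exact ⟨hSopen i, hSne i hi⟩
  · intro U hU hn
    obtain ⟨i, hi, hiU⟩ := exists_nb hU hn
    exact ⟨S i, ⟨i, hi, rfl⟩, inter_subset_left.trans hiU⟩
  · intro f
    have h1 : {i | f ∈ S i}.Countable := by
      refine Set.Countable.mono (s₂ := φ ⁻¹' {d ∈ D | 1 < |f d - f (r d)|}) ?_
        ((hc f).preimage_of_injOn hφinj.injOn)
      intro i hi
      exact ⟨hφD i, hi.2⟩
    refine (h1.image S).mono ?_
    rintro B ⟨⟨i, _, rfl⟩, hfB⟩
    exact ⟨i, hfB, rfl⟩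

end Pool.Agent.R828.CP
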