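import Pool.Agent.R828.CP.Crit

/-!
# Point-countable `π`-bases of `C_p(X)`: closed sets with small derivatives, finite height, `ℵ₁`
-/

set_option autoImplicit false

namespace Pool.Agent.R828.CP

open Set Topology Cardinal Filter

variable {X : Type} [TopologicalSpace X] [T2Space X] [CompactSpace X]

omit [T2Space X] in
/-- closed sets whose derived set is smaller -/
theorem diff_countable {S : Set X} (hS : IsClosed S) {V : Set X} (hVo : IsOpen V)
    (hV : derivedSet S ⊆ V) : ((S \ derivedSet S) \ V).Countable := by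
  have h1 : (S \ V).Finite := by
    by_contra hcon
    obtain ⟨x, hx, hacc⟩ := Set.Infinite.exists_accPt_of_subset_isCompact
      (hcon : (S \ V).Infinite) (hS.sdiff hVo).isCompact (subset_refl _)
    exact hx.2 (hV (hacc.mono (principal_mono.2 sdiff_subset)))
  exact (h1.subset (sdiff_subset_sdiff_left sdiff_subset)).countable

omit [T2Space X] [CompactSpace X] in
theorem card_diff {S : Set X} (h1 : ℵ₀ < #S) (h2 : #(derivedSet S) < #S) :
    #S ≤ #(S \ derivedSet S : Set X) := by
  by_contra hcon
  push Not at hcon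
  have h3 : #S ≤ #(S \ derivedSet S : Set X) + #(derivedSet S) := by
    have h4 : S ⊆ (S \ derivedSet S) ∪ derivedSet S := by
      intro x hx
      by_cases h : x ∈ derivedSet S
      · exact Or.inr h
      · exact Or.inl ⟨hx, h⟩
    exact (mk_le_mk_of_subset h4).trans (mk_union_le _ _)
  exact absurd h3 (not_le.2 (add_lt_of_lt h1.le hcon h2))

theorem hasBase_of_closed_seq (S : ℕ → Set X) (hS : ∀ n, IsClosed (S n))
    (h1 : ∀ n, ℵ₀ < #(S n)) (h2 : ∀ n, #(derivedSet (S n)) < #(S n)) (h3 : #X ≤ #(⋃ n, S n)) :
    HasBase X := by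
  have hc : ∀ n, #(S n) ≤ #(S n \ derivedSet (S n) : Set X) := fun n => card_diff (h1 n) (h2 n)
  refine hasBase_of_seq (fun n => S n \ derivedSet (S n)) (fun n => derivedSet (S n))
    (fun n => (h1 n).trans_le (hc n)) (fun n => isClosed_derivedSet _)
    (fun n => (h2 n).trans_le (hc n)) (fun n V hVo hV => diff_countable (hS n) hVo hV) ?_
  refine h3.trans ?_
  have h4 : #(⋃ n, S n) ≤ #ℕ * ⨆ n, #(S n) := mk_iUnion_le _
  have h5 : (⨆ n, #(S n)) ≤ #(⋃ n, (S n \ derivedSet (S n))) :=
    ciSup_le' (fun n => (hc n).trans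
      (mk_le_mk_of_subset (subset_iUnion (fun n => S n \ derivedSet (S n)) n)))
  have h6 : ℵ₀ ≤ #(⋃ n, (S n \ derivedSet (S n))) :=
    ((h1 0).le.trans (hc 0)).trans
      (mk_le_mk_of_subset (subset_iUnion (fun n => S n \ derivedSet (S n)) 0))
  refine h4.trans ((mul_le_mul' (mk_nat.le.trans h6) h5).trans ?_)
  rw [mul_eq_self h6]

theorem hasBase_of_closed (S : Set X) (hS : IsClosed S) (h1 : #X ≤ #S)
    (h2 : #(derivedSet S) < #X) : HasBase X := by
  rcases le_or_gt (#X) ℵ₀ with h | h
  · have : Countable X := Cardinal.mk_le_aleph0_iff.1 h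
    exact hasBase_of_countable
  · refine hasBase_of_closed_seq (fun _ => S) (fun _ => hS) (fun _ => h.trans_le h1)
      (fun _ => h2.trans_le h1) ?_
    exact h1.trans (mk_le_mk_of_subset (subset_iUnion (fun _ : ℕ => S) 0))

/-- finite Cantor-Bendixson height -/
theorem hasBase_of_height (n : ℕ) (h : (derivedSet : Set X → Set X)^[n] univ = ∅) :
    HasBase X := by
  classical
  rcases isEmpty_or_nonempty X with hE | hne
  · exact hasBase_of_countable
  · let P : ℕ → Prop := fun i => ¬ #X ≤ #((derivedSet : Set X → Set X)^[i] univ : Set X)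
    have hP : ∃ i, P i := by
      refine ⟨n, ?_⟩
      show ¬ #X ≤ #((derivedSet : Set X → Set X)^[n] univ : Set X)
      rw [h]
      intro hcon
      have h1 : #((∅ : Set X)) = 0 := mk_eq_zero _
      rw [h1, nonpos_iff_eq_zero] at hcon
      exact mk_ne_zero X hcon
    have h0 : ¬ P 0 := by
      intro h0
      apply h0
      rw [Function.iterate_zero, id, mk_univ]
    have hspec := Nat.find_spec hP
    obtain ⟨i, hi⟩ : ∃ i, Nat.find hP = i + 1 :=
      Nat.exists_eq_succ_of_ne_zero (fun h1 => h0 (h1 ▸ hspec))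
    have hi2 : ¬ P i := Nat.find_min hP (by rw [hi]; exact Nat.lt_succ_self i)
    have hcl : IsClosed ((derivedSet : Set X → Set X)^[i] univ) := by
      cases i with
      | zero => exact isClosed_univ
      | succ j =>
        rw [Function.iterate_succ_apply']
        exact isClosed_derivedSet _
    refine hasBase_of_closed _ hcl (not_not.1 hi2) ?_
    rw [hi] at hspec
    have h1 : ¬ #X ≤ #((derivedSet : Set X → Set X)^[i + 1] univ : Set X) := hspec
    rw [Function.iterate_succ_apply'] at h1
    exact not_le.1 h1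

/-- scattered compact spaces of cardinality at most `ℵ₁` -/
theorem hasBase_of_aleph_one
    (hsc : ∀ s : Set X, s.Nonempty → ∃ x ∈ s, ∃ U : Set X, IsOpen U ∧ U ∩ s = {x})
    (hX : #X ≤ ℵ₁) : HasBase X := by
  rcases le_or_gt (#X) ℵ₀ with h | h
  · have : Countable X := Cardinal.mk_le_aleph0_iff.1 h
    exact hasBase_of_countable
  · let F : Set X := {z | ∀ U : Set X, IsOpen U → z ∈ U → ¬ U.Countable}
    have hcomp : ∀ K : Set X, IsCompact K → Disjoint K F → K.Countable := by
      intro K hK hKF
      refine hK.induction_on countable_empty (fun s t hst ht => ht.mono hst)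
        (fun s t hs ht => hs.union ht) (fun x hx => ?_)
      have h1 : x ∉ F := fun hxF => disjoint_left.1 hKF hx hxF
      simp only [F, Set.mem_ofPred_eq, not_forall, not_not] at h1
      obtain ⟨U, hU, hxU, hUc⟩ := h1
      exact ⟨U, mem_nhdsWithin_of_mem_nhds (hU.mem_nhds hxU), hUc⟩
    have hF : F.Nonempty := by
      by_contra hcon
      rw [not_nonempty_iff_eq_empty] at hcon
      have h1 := hcomp univ isCompact_univ (by rw [hcon]; exact disjoint_empty _)
      have h2 : Countable X := countable_univ_iff.1 h1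
      exact absurd (mk_le_aleph0_iff.2 h2) (not_le.2 h)
    obtain ⟨z, hz, U, hU, hUF⟩ := hsc F hF
    have hzU : z ∈ U := by
      have : z ∈ U ∩ F := by rw [hUF]; rfl
      exact this.1
    obtain ⟨K, hK, hKc, hKU⟩ := exists_mem_nhds_isClosed_subset (hU.mem_nhds hzU)
    have hKF : ∀ x ∈ K, x ≠ z → x ∉ F := by
      intro x hx hne hxF
      have h1 : x ∈ U ∩ F := ⟨hKU hx, hxF⟩
      rw [hUF] at h1
      exact hne h1
    have hKunc : ¬ (K \ {z}).Countable := by
      intro hcon
      have h1 : K.Countable := by
        refine (hcon.union (countable_singleton z)).mono ?_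
        intro x hx
        by_cases hxz : x = z
        · exact Or.inr hxz
        · exact Or.inl ⟨hx, hxz⟩
      exact hz (interior K) isOpen_interior (mem_interior_iff_mem_nhds.2 hK)
        (h1.mono interior_subset)
    have hlt : ℵ₀ < #(K \ {z} : Set X) := by
      rw [← not_le, le_aleph0_iff_set_countable]
      exact hKunc
    refine hasBase_of_small (K \ {z}) {z} hlt isClosed_singleton ?_ ?_ ?_
    · rw [mk_singleton]
      exact one_lt_aleph0.trans hlt
    · intro V hVo hV
      refine hcomp (K \ V) (hKc.sdiff hVo).isCompact ?_ |>.mono ?_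
      · rw [disjoint_left]
        intro x hx
        exact hKF x hx.1 (fun h => hx.2 (hV h))
      · intro x hx
        exact ⟨hx.1.1, hx.2⟩
    · refine hX.trans ?_
      rw [← succ_aleph0]
      exact Order.succ_le_of_lt hlt

end Pool.Agent.R828.CP
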