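import Pool.Agent.R828.CP.Basic

/-!
# Point-countable `π`-bases of `C_p(X)`: few condensation points
-/

set_option autoImplicit false

namespace Pool.Agent.R828.CP

open Set Topology Cardinal Filter

variable {X : Type} [TopologicalSpace X] [T2Space X] [CompactSpace X]

/-- If `L` is closed, `|L| < |D|` and `D \ V` is countable for all open `V ⊇ L`, then most points
`d` of `D` have a partner `r d` in `L`, such that each continuous function almost does not separate
the pairs. -/
theorem pairs_of_small (D L : Set X) (hX : ℵ₀ < #D) (hL : IsClosed L)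
    (hLX : #L < #D) (hV : ∀ V : Set X, IsOpen V → L ⊆ V → (D \ V).Countable) :
    ∃ D' ⊆ D, #D ≤ #D' ∧ ∃ r : X → X, (∀ d ∈ D', r d ≠ d) ∧
      ∀ f : C(X, ℝ), {d ∈ D' | 1 < |f d - f (r d)|}.Countable := by
  classical
  -- the separating functions
  have hsep : ∀ p : L × L, ∃ g : C(X, ℝ), (p.1 : X) ≠ p.2 → g p.1 ≠ g p.2 := by
    rintro ⟨z, z'⟩
    by_cases h : (z : X) = z'
    · exact ⟨0, fun h' => absurd h h'⟩
    · obtain ⟨e, he0, he1, -⟩ := exists_continuous_zero_one_of_isClosed
        (isClosed_singleton (x := (z : X))) (isClosed_singleton (x := (z' : X)))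
        (by rwa [Set.disjoint_singleton])
      refine ⟨e, fun _ => ?_⟩
      have h1 : e z = 0 := he0 rfl
      have h2 : e z' = 1 := he1 rfl
      simp only [h1, h2]
      exact zero_ne_one
  choose G hG using hsep
  -- the neighbourhoods of `L`
  let V : Finset (L × L) × ℕ → Set X := fun i =>
    {x | ∃ z ∈ L, ∀ p ∈ i.1, |G p x - G p z| < 1 / ((i.2 : ℝ) + 1)}
  have hVopen : ∀ i, IsOpen (V i) := by
    intro i
    have h : V i = ⋃ z ∈ L, ⋂ p ∈ i.1, {x | |G p x - G p z| < 1 / ((i.2 : ℝ) + 1)} := by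
      ext x
      simp [V]
    rw [h]
    refine isOpen_biUnion (fun z _ => isOpen_biInter_finset (fun p _ => ?_))
    exact isOpen_lt (by fun_prop) continuous_const
  have hVL : ∀ i, L ⊆ V i := by
    intro i z hz
    refine ⟨z, hz, fun p _ => ?_⟩
    rw [sub_self, abs_zero]
    positivity
  let bad : Set X := ⋃ i : Finset (L × L) × ℕ, D \ V i
  have hbad : Cardinal.mk bad < #D := by
    have h1 : Cardinal.mk bad ≤ #(Finset (L × L) × ℕ) * ⨆ i : Finset (L × L) × ℕ, #(D \ V i : Set X) :=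
      mk_iUnion_le _
    have h2 : (⨆ i : Finset (L × L) × ℕ, #(D \ V i : Set X)) ≤ ℵ₀ :=
      ciSup_le' (fun i => (hV _ (hVopen i) (hVL i)).le_aleph0)
    have h3 : #(Finset (L × L) × ℕ) ≤ max ℵ₀ #L := by
      rw [mk_prod, lift_id, lift_id, mk_nat]
      have h4 : #(Finset (L × L)) ≤ max ℵ₀ #L := by
        rcases lt_or_ge (#L) ℵ₀ with h | h
        · have : Finite L := Cardinal.lt_aleph0_iff_finite.1 h
          exact (Cardinal.lt_aleph0_of_finite _).le.trans (le_max_left _ _)
        · have h5 : Infinite L := Cardinal.infinite_iff.2 h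
          have h6 : Infinite (L × L) := inferInstance
          rw [mk_finset_of_infinite, mk_prod, lift_id, mul_eq_self h]
          exact le_max_right _ _
      refine (mul_le_mul' h4 (le_refl ℵ₀)).trans ?_
      rw [mul_aleph0_eq (le_max_left _ _)]
    refine h1.trans_lt ((mul_le_mul' h3 h2).trans_lt ?_)
    rw [mul_aleph0_eq (le_max_left _ _)]
    exact max_lt hX hLX
  let D' : Set X := D \ (bad ∪ L)
  have hD' : #D ≤ #D' := by
    by_contra hcon
    push Not at hcon
    have h1 : #D ≤ #D' + (Cardinal.mk bad + #L) := by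
      have h2 : D ⊆ D' ∪ (bad ∪ L) := by
        intro x hx
        by_cases h : x ∈ bad ∪ L
        · exact Or.inr h
        · exact Or.inl ⟨hx, h⟩
      exact (mk_le_mk_of_subset h2).trans ((mk_union_le _ _).trans
        (add_le_add le_rfl (mk_union_le _ _)))
    exact absurd h1 (not_le.2 (add_lt_of_lt hX.le hcon (add_lt_of_lt hX.le hbad hLX)))
  -- the partner
  have hpart : ∀ d : X, ∃ z : X, d ∈ D' → z ∈ L ∧ ∀ p, G p d = G p z := by
    intro d
    by_cases hd : d ∈ D'
    · have hnb : d ∉ bad := fun h => hd.2 (Or.inl h)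
      have hmem : ∀ i, d ∈ V i := by
        intro i
        by_contra hcon
        exact hnb (mem_iUnion.2 ⟨i, hd.1, hcon⟩)
      have hcomp : (L ∩ ⋂ i : (L × L) × ℕ,
          {z : X | |G i.1 d - G i.1 z| ≤ 1 / ((i.2 : ℝ) + 1)}).Nonempty := by
        refine hL.isCompact.inter_iInter_nonempty _ (fun i => ?_) (fun u => ?_)
        · exact isClosed_le (by fun_prop) continuous_const
        · obtain ⟨z, hz, hzp⟩ := hmem (u.image Prod.fst, u.sup Prod.snd)
          refine ⟨z, hz, mem_iInter₂.2 (fun i hi => ?_)⟩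
          have h1 := hzp i.1 (Finset.mem_image.2 ⟨i, hi, rfl⟩)
          have h2 : (i.2 : ℝ) ≤ ((u.sup Prod.snd : ℕ) : ℝ) := by
            exact_mod_cast Finset.le_sup (f := Prod.snd) hi
          refine h1.le.trans ?_
          exact one_div_le_one_div_of_le (by positivity) (by simpa using h2)
      obtain ⟨z, hz, hz2⟩ := hcomp
      refine ⟨z, fun _ => ⟨hz, fun p => ?_⟩⟩
      have h1 : ∀ n : ℕ, |G p d - G p z| ≤ 1 / ((n : ℝ) + 1) := fun n =>
        mem_iInter.1 hz2 (p, n)
      have h2 : |G p d - G p z| ≤ 0 :=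
        ge_of_tendsto' tendsto_one_div_add_atTop_nhds_zero_nat h1
      exact sub_eq_zero.1 (abs_nonpos_iff.1 h2)
    · exact ⟨d, fun h => absurd h hd⟩
  choose r hr using hpart
  refine ⟨D', sdiff_subset, hD', r, ?_, ?_⟩
  · intro d hd h
    exact hd.2 (Or.inr (h ▸ (hr d hd).1))
  · intro f
    -- approximation on `L`
    have hLc : CompactSpace L := isCompact_iff_compactSpace.1 hL.isCompact
    let inc : C(L, X) := ⟨Subtype.val, continuous_subtype_val⟩
    let ρ : C(X, ℝ) →ₐ[ℝ] C(L, ℝ) := ContinuousMap.compRightAlgHom ℝ ℝ inc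
    let A : Subalgebra ℝ C(X, ℝ) := Algebra.adjoin ℝ (Set.range G)
    have hAsep : (A.map ρ).SeparatesPoints := by
      intro z z' hne
      refine ⟨ρ (G (z, z')), ⟨ρ (G (z, z')), ⟨G (z, z'), ?_, rfl⟩, rfl⟩, ?_⟩
      · exact Algebra.subset_adjoin ⟨_, rfl⟩
      · exact hG (z, z') (fun h => hne (Subtype.ext h))
    have heqA : ∀ h ∈ A, ∀ d ∈ D', h d = h (r d) := by
      intro h hh d hd
      induction hh using Algebra.adjoin_induction with
      | mem x hx =>
        obtain ⟨p, rfl⟩ := hx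
        exact (hr d hd).2 p
      | algebraMap c => simp [Algebra.algebraMap_eq_smul_one]
      | add x y _ _ hx hy => rw [ContinuousMap.add_apply, ContinuousMap.add_apply, hx, hy]
      | mul x y _ _ hx hy => rw [ContinuousMap.mul_apply, ContinuousMap.mul_apply, hx, hy]
    obtain ⟨⟨k, hk⟩, hk2⟩ :=
      ContinuousMap.exists_mem_subalgebra_near_continuousMap_of_separatesPoints (A.map ρ) hAsep
        (ρ f) (1 / 2) (by norm_num)
    obtain ⟨h, hh, rfl⟩ := hk
    have hnear : ∀ z : L, |h z - f z| < 1 / 2 := by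
      intro z
      have h1 := (ContinuousMap.norm_coe_le_norm (ρ h - ρ f) z).trans_lt hk2
      exact h1
    have heq : ∀ d ∈ D', h d = h (r d) := heqA h hh
    refine (hV {x | |h x - f x| < 1 / 2} (isOpen_lt (by fun_prop) continuous_const)
      (fun z hz => hnear ⟨z, hz⟩)).mono ?_
    rintro d ⟨hd, hd2⟩
    refine ⟨hd.1, fun hcon => ?_⟩
    have h1 : |h d - f d| < 1 / 2 := hcon
    have h2 := hnear ⟨r d, (hr d hd).1⟩
    simp only at h2
    have h3 : f d - f (r d) = (h (r d) - f (r d)) - (h d - f d) := by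
      rw [heq d hd]
      ring
    rw [h3] at hd2
    have h4 := abs_sub (h (r d) - f (r d)) (h d - f d)
    linarith

/-- The same for countably many pairs `(D n, L n)`, where `|X| = |⋃ D n|`: then `C_p(X)` has a
point-countable `π`-base. -/
theorem hasBase_of_seq (D L : ℕ → Set X) (hX : ∀ n, ℵ₀ < #(D n)) (hL : ∀ n, IsClosed (L n))
    (hLD : ∀ n, #(L n) < #(D n))
    (hV : ∀ n, ∀ V : Set X, IsOpen V → L n ⊆ V → (D n \ V).Countable)
    (hD : #X ≤ #(⋃ n, D n)) : HasBase X := by
  classical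
  choose D' hD' hcard r hr hc using fun n => pairs_of_small (D n) (L n) (hX n) (hL n) (hLD n) (hV n)
  have hU : #(⋃ n, D n) ≤ #(⋃ n, D' n) := by
    have h1 : #(⋃ n, D n) ≤ #ℕ * ⨆ n, #(D n) := mk_iUnion_le _
    have h2 : (⨆ n, #(D n)) ≤ #(⋃ n, D' n) :=
      ciSup_le' (fun n => (hcard n).trans (mk_le_mk_of_subset (subset_iUnion D' n)))
    have h3 : ℵ₀ ≤ #(⋃ n, D' n) :=
      ((hX 0).le.trans (hcard 0)).trans (mk_le_mk_of_subset (subset_iUnion D' 0))
    refine h1.trans ((mul_le_mul' (mk_nat.le.trans h3) h2).trans ?_)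
    rw [mul_eq_self h3]
  let E : Set X := ⋃ n, D' n
  have hE : ∀ d : X, ∃ n, d ∈ E → d ∈ D' n := by
    intro d
    by_cases h : d ∈ E
    · obtain ⟨n, hn⟩ := mem_iUnion.1 h
      exact ⟨n, fun _ => hn⟩
    · exact ⟨0, fun h' => absurd h' h⟩
  choose m hm using hE
  have hXinf : ℵ₀ ≤ #X := (hX 0).le.trans (mk_set_le _)
  refine hasBase_of_pairs E hXinf (hD.trans hU) (fun d => r (m d) d) ?_ ?_
  · intro d hd
    exact hr (m d) d (hm d hd)
  · intro f
    refine (countable_iUnion (fun n => hc n f)).mono ?_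
    rintro d ⟨hd, hd2⟩
    exact mem_iUnion.2 ⟨m d, hm d hd, hd2⟩

theorem hasBase_of_small (D L : Set X) (hX : ℵ₀ < #D) (hL : IsClosed L) (hLX : #L < #D)
    (hV : ∀ V : Set X, IsOpen V → L ⊆ V → (D \ V).Countable) (hD : #X ≤ #D) : HasBase X := by
  refine hasBase_of_seq (fun _ => D) (fun _ => L) (fun _ => hX) (fun _ => hL) (fun _ => hLX)
    (fun _ => hV) ?_
  exact hD.trans (mk_le_mk_of_subset (subset_iUnion (fun _ : ℕ => D) 0))

end Pool.Agent.R828.CP
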