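import Pool.Agent.R828.CP.Basic

/-!
# Point-countable `π`-bases of `C_p(X)`: scattered compact linearly ordered spaces
-/

set_option autoImplicit false

namespace Pool.Agent.R828.CP

open Set Topology Cardinal Filter

/-- a scattered space has at most as many points as any infinite network has members -/
theorem card_le_of_network {X : Type} [TopologicalSpace X]
    (hsc : ∀ s : Set X, s.Nonempty → ∃ x ∈ s, ∃ U : Set X, IsOpen U ∧ U ∩ s = {x})
    {I : Type} (hI : ℵ₀ ≤ #I) (N : I → Set X)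
    (hN : ∀ (x : X) (U : Set X), IsOpen U → x ∈ U → ∃ i, x ∈ N i ∧ N i ⊆ U) : #X ≤ #I := by
  classical
  let G : Set X := ⋃ i : {i : I // #(N i) ≤ #I}, N i
  have hG : #G ≤ #I := by
    have h1 : #G ≤ #{i : I // #(N i) ≤ #I} * ⨆ i : {i : I // #(N i) ≤ #I}, #(N i) :=
      mk_iUnion_le _
    have h2 : (⨆ i : {i : I // #(N i) ≤ #I}, #(N i)) ≤ #I := ciSup_le' (fun i => i.2)
    refine h1.trans ((mul_le_mul' (mk_subtype_le _) h2).trans ?_)
    rw [mul_eq_self hI]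
  have hGu : G = Set.univ := by
    by_contra hne
    have hc : (Gᶜ).Nonempty := nonempty_compl.2 hne
    obtain ⟨x, hx, U, hU, hUG⟩ := hsc _ hc
    have hxU : x ∈ U := by
      have h1 : x ∈ U ∩ Gᶜ := by rw [hUG]; rfl
      exact h1.1
    obtain ⟨i, hxi, hiU⟩ := hN x U hU hxU
    have h1 : N i ⊆ insert x G := by
      intro y hy
      by_cases hyG : y ∈ G
      · exact Or.inr hyG
      · have h2 : y ∈ U ∩ Gᶜ := ⟨hiU hy, hyG⟩
        rw [hUG] at h2
        exact Or.inl h2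
    have h2 : #(N i) ≤ #I := by
      refine (mk_le_mk_of_subset h1).trans (mk_insert_le.trans ?_)
      exact (add_le_add hG (one_lt_aleph0.le.trans hI)).trans (add_eq_self hI).le
    exact hx (mem_iUnion.2 ⟨⟨i, h2⟩, hxi⟩)
  rw [← mk_univ, ← hGu]
  exact hG

variable {X : Type} [LinearOrder X] [TopologicalSpace X] [OrderTopology X]

theorem exists_jump
    (hsc : ∀ s : Set X, s.Nonempty → ∃ x ∈ s, ∃ U : Set X, IsOpen U ∧ U ∩ s = {x})
    {l x : X} (hlx : l < x) : ∃ a b, l ≤ a ∧ b ≤ x ∧ a ⋖ b := by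
  by_contra hcon
  push Not at hcon
  have hd : ∀ a b, l ≤ a → b ≤ x → a < b → ∃ c, a < c ∧ c < b := fun a b h1 h2 h3 =>
    exists_lt_lt_of_not_covBy h3 (hcon a b h1 h2)
  obtain ⟨y, hy, U, hU, hUy⟩ := hsc (Icc l x) ⟨l, le_rfl, hlx.le⟩
  have hyU : y ∈ U := by
    have h1 : y ∈ U ∩ Icc l x := by rw [hUy]; rfl
    exact h1.1
  have hno : ∀ c ∈ U, c ∈ Icc l x → c = y := by
    intro c hc hc2
    have h1 : c ∈ U ∩ Icc l x := ⟨hc, hc2⟩
    rw [hUy] at h1
    exact h1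
  rcases lt_or_ge y x with h | h
  · obtain ⟨u, hu, hsub⟩ := exists_Ico_subset_of_mem_nhds' (hU.mem_nhds hyU) h
    obtain ⟨c, hc1, hc2⟩ := hd y u hy.1 hu.2 hu.1
    exact absurd (hno c (hsub ⟨hc1.le, hc2⟩) ⟨hy.1.trans hc1.le, hc2.le.trans hu.2⟩) hc1.ne'
  · have hly : l < y := hlx.trans_le h
    obtain ⟨v, hv, hsub⟩ := exists_Ioc_subset_of_mem_nhds' (hU.mem_nhds hyU) hly
    obtain ⟨c, hc1, hc2⟩ := hd v y hv.1 hy.2 hv.2
    exact absurd (hno c (hsub ⟨hc1, hc2.le⟩) ⟨hv.1.trans hc1.le, hc2.le.trans hy.2⟩) hc2.ne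

theorem exists_interval
    (hsc : ∀ s : Set X, s.Nonempty → ∃ x ∈ s, ∃ U : Set X, IsOpen U ∧ U ∩ s = {x})
    (x : X) (U : Set X) (hU : IsOpen U) (hx : x ∈ U) :
    ∃ i : Option {a : X | ∃ b, a ⋖ b} × Option {a : X | ∃ b, a ⋖ b},
      x ∈ {y | (∀ a ∈ i.1, (a : X) < y) ∧ ∀ c ∈ i.2, y ≤ (c : X)} ∧
      {y | (∀ a ∈ i.1, (a : X) < y) ∧ ∀ c ∈ i.2, y ≤ (c : X)} ⊆ U := by
  have hleft : ∃ o : Option {a : X | ∃ b, a ⋖ b}, (∀ a ∈ o, (a : X) < x) ∧
      ∀ y, y ≤ x → (∀ a ∈ o, (a : X) < y) → y ∈ U := by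
    by_cases h : ∃ l, l < x
    · obtain ⟨l, hl⟩ := h
      obtain ⟨v, hv, hsub⟩ := exists_Ioc_subset_of_mem_nhds' (hU.mem_nhds hx) hl
      obtain ⟨a, b, hva, hbx, hab⟩ := exists_jump hsc hv.2
      refine ⟨some ⟨a, b, hab⟩, ?_, ?_⟩
      · intro c hc
        obtain rfl := Option.mem_some_iff.1 hc
        exact hab.1.trans_le hbx
      · intro y hyx hy
        exact hsub ⟨hva.trans_lt (hy _ rfl), hyx⟩
    · push Not at h
      refine ⟨none, fun a ha => by simp at ha, fun y hyx _ => ?_⟩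
      rw [le_antisymm hyx (h y)]
      exact hx
  have hright : ∃ o : Option {a : X | ∃ b, a ⋖ b}, (∀ c ∈ o, x ≤ (c : X)) ∧
      ∀ y, x ≤ y → (∀ c ∈ o, y ≤ (c : X)) → y ∈ U := by
    by_cases h : ∃ u, x < u
    · obtain ⟨u, hu⟩ := h
      obtain ⟨v, hv, hsub⟩ := exists_Ico_subset_of_mem_nhds' (hU.mem_nhds hx) hu
      obtain ⟨a, b, hxa, hbv, hab⟩ := exists_jump hsc hv.1
      refine ⟨some ⟨a, b, hab⟩, ?_, ?_⟩
      · intro c hc
        obtain rfl := Option.mem_some_iff.1 hc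
        exact hxa
      · intro y hxy hy
        exact hsub ⟨hxy, (hy _ rfl).trans_lt (hab.1.trans_le hbv)⟩
    · push Not at h
      refine ⟨none, fun a ha => by simp at ha, fun y hxy _ => ?_⟩
      rw [le_antisymm (h y) hxy]
      exact hx
  obtain ⟨o₁, h1, h2⟩ := hleft
  obtain ⟨o₂, h3, h4⟩ := hright
  refine ⟨(o₁, o₂), ⟨h1, h3⟩, ?_⟩
  rintro y ⟨hy1, hy2⟩
  rcases le_total y x with h | h
  · exact h2 y h hy1
  · exact h4 y h hy2

/-- continuous functions separate only finitely many jumps -/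
theorem finite_jumps [CompactSpace X] (f : C(X, ℝ)) (r : X → X) :
    {d : X | d ⋖ r d ∧ 1 < |f d - f (r d)|}.Finite := by
  by_contra hcon
  obtain ⟨p, -, hp⟩ := Set.Infinite.exists_accPt_of_subset_isCompact
    (hcon : {d : X | d ⋖ r d ∧ 1 < |f d - f (r d)|}.Infinite) isCompact_univ (subset_univ _)
  rw [accPt_iff_nhds] at hp
  have hU : {x : X | |f x - f p| < 1 / 2} ∈ 𝓝 p := by
    refine (isOpen_lt (by fun_prop) continuous_const).mem_nhds ?_
    show |f p - f p| < 1 / 2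
    rw [sub_self, abs_zero]
    norm_num
  have hkey : ∀ d : X, 1 < |f d - f (r d)| → |f d - f p| < 1 / 2 → |f (r d) - f p| < 1 / 2 →
      False := by
    intro d h1 h2 h3
    have h4 : f d - f (r d) = (f d - f p) - (f (r d) - f p) := by ring
    rw [h4] at h1
    have h5 := abs_sub (f d - f p) (f (r d) - f p)
    linarith
  obtain ⟨WL, hWL, hWL2⟩ : ∃ W ∈ 𝓝 p, ∀ y ∈ W, y ⋖ r y → 1 < |f y - f (r y)| → ¬ y < p := by
    by_cases h : ∃ l, l < p
    · obtain ⟨l, hl⟩ := h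
      obtain ⟨v, hv, hsub⟩ := exists_Ioc_subset_of_mem_nhds' hU hl
      refine ⟨Ioi v, Ioi_mem_nhds hv.2, fun y hy hjump hy2 hlt => ?_⟩
      exact hkey y hy2 (hsub ⟨hy, hlt.le⟩)
        (hsub ⟨(show v < y from hy).trans hjump.1, hjump.ge_of_gt hlt⟩)
    · push Not at h
      exact ⟨Set.univ, univ_mem, fun y _ _ _ hlt => absurd hlt (not_lt.2 (h y))⟩
  have hget : ∀ W ∈ 𝓝 p, ∃ y, y ∈ W ∧ p < y ∧ y ⋖ r y ∧ 1 < |f y - f (r y)| := by
    intro W hW
    obtain ⟨y, ⟨hy1, hy2⟩, hne⟩ := hp (W ∩ WL) (inter_mem hW hWL)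
    refine ⟨y, hy1.1, ?_, hy2.1, hy2.2⟩
    exact lt_of_le_of_ne (not_lt.1 (hWL2 y hy1.2 hy2.1 hy2.2)) (Ne.symm hne)
  obtain ⟨y₁, -, hp1, -, -⟩ := hget Set.univ univ_mem
  obtain ⟨u, hu, hsub⟩ := exists_Ico_subset_of_mem_nhds' hU hp1
  obtain ⟨y₂, hy2u, hp2, -, -⟩ := hget (Iio u) (Iio_mem_nhds hu.1)
  obtain ⟨y₃, hy32, hp3, hj, hf⟩ := hget (Iio y₂) (Iio_mem_nhds hp2)
  have h1 : r y₃ ≤ y₂ := hj.ge_of_gt hy32
  refine hkey y₃ hf (hsub ⟨hp3.le, (show y₃ < y₂ from hy32).trans hy2u⟩)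
    (hsub ⟨hp3.le.trans hj.1.le, h1.trans_lt hy2u⟩)

/-- scattered compact linearly ordered spaces -/
theorem hasBase_of_ordered [CompactSpace X]
    (hsc : ∀ s : Set X, s.Nonempty → ∃ x ∈ s, ∃ U : Set X, IsOpen U ∧ U ∩ s = {x}) :
    HasBase X := by
  classical
  rcases le_or_gt (#X) ℵ₀ with h | h
  · have : Countable X := Cardinal.mk_le_aleph0_iff.1 h
    exact hasBase_of_countable
  · let D : Set X := {a : X | ∃ b, a ⋖ b}
    have hD : #X ≤ #D := by
      by_contra hcon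
      push Not at hcon
      have hnet := card_le_of_network hsc (I := (Option D × Option D) × ℕ)
        (by
          rw [mk_prod, lift_id, lift_id, mk_nat]
          exact le_mul_left (mk_ne_zero _))
        (fun i => {y | (∀ a ∈ i.1.1, (a : X) < y) ∧ ∀ c ∈ i.1.2, y ≤ (c : X)})
        (by
          intro x U hU hx
          obtain ⟨i, hi⟩ := exists_interval hsc x U hU hx
          exact ⟨(i, 0), hi⟩)
      rw [mk_prod, mk_prod, mk_option, lift_id, lift_id, lift_id, mk_nat] at hnet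
      have h1 : #D + 1 < #X := add_lt_of_lt h.le hcon (one_lt_aleph0.trans h)
      exact absurd hnet (not_le.2 (mul_lt_of_lt h.le (mul_lt_of_lt h.le h1 h1) h))
    have hr : ∀ a : X, ∃ b, a ∈ D → a ⋖ b := by
      intro a
      by_cases ha : a ∈ D
      · obtain ⟨b, hb⟩ := ha
        exact ⟨b, fun _ => hb⟩
      · exact ⟨a, fun h => absurd h ha⟩
    choose r hr using hr
    have hT2 : T2Space X := inferInstance
    refine hasBase_of_pairs D h.le hD r (fun d hd => (hr d hd).1.ne') (fun f => ?_)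
    refine ((finite_jumps f r).subset ?_).countable
    rintro d ⟨hd, hd2⟩
    exact ⟨hr d hd, hd2⟩

end Pool.Agent.R828.CP
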