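import Pool.Agent.R828.CP.Basic

/-!
# Point-countable `π`-bases of `C_p(X)`: closed subspaces of full cardinality
-/

set_option autoImplicit false

namespace Pool.Agent.R828.CP

open Set Topology Cardinal Filter

/-- a nonempty open set of functions determines the values at finitely many points only -/
theorem finite_pinned {Y : Type} [TopologicalSpace Y] [T2Space Y] [CompactSpace Y]
    {B : Set C(Y, ℝ)} (hB : POpen B) (hn : B.Nonempty) :
    {y : Y | ∀ g ∈ B, |g y| < 1}.Finite := by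
  classical
  obtain ⟨i, ⟨f₀, hf₀⟩, hiB⟩ := exists_nb hB hn
  refine (i.1.image Prod.fst).finite_toSet.subset ?_
  intro y hy
  by_contra hcon
  have hdisj : Disjoint ((i.1.image Prod.fst : Finset Y) : Set Y) {y} := by
    rw [Set.disjoint_singleton_right]
    exact hcon
  obtain ⟨e, he0, he1, -⟩ := exists_continuous_zero_one_of_isClosed
    (Finset.isClosed (i.1.image Prod.fst)) (isClosed_singleton (x := y)) hdisj
  have h1 := hy (f₀ + (2 - f₀ y) • e) (hiB (by
    intro p hp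
    have h1 : e p.1 = 0 := he0 (Finset.mem_coe.2 (Finset.mem_image.2 ⟨p, hp, rfl⟩))
    simp only [ContinuousMap.add_apply, ContinuousMap.smul_apply, smul_eq_mul, h1, mul_zero,
      add_zero]
    exact hf₀ p hp))
  have h2 : e y = 1 := he1 rfl
  simp only [ContinuousMap.add_apply, ContinuousMap.smul_apply, smul_eq_mul, h2, mul_one] at h1
  have h3 : f₀ y + (2 - f₀ y) = 2 := by ring
  rw [h3] at h1
  norm_num at h1

/-- If `Y` is a closed subset of `X` with `|Y| = |X|` and `C_p(Y)` has a point-countable `π`-base,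
then so has `C_p(X)`. -/
theorem hasBase_of_subspace {X : Type} [TopologicalSpace X] [T2Space X] [CompactSpace X]
    (Y : Set X) (hY : IsClosed Y) (hXY : #X ≤ #Y) (hb : HasBase Y) : HasBase X := by
  classical
  rcases le_or_gt (#X) ℵ₀ with h | hX'
  · have : Countable X := Cardinal.mk_le_aleph0_iff.1 h
    exact hasBase_of_countable
  have hX : ℵ₀ ≤ #X := hX'.le
  have hinf : Infinite X := Cardinal.infinite_iff.2 hX
  have hYc : CompactSpace Y := isCompact_iff_compactSpace.1 hY.isCompact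
  obtain ⟨𝓑, hb1, hb2, hb3⟩ := hb
  -- indices
  have hcard : #((Finset (X × ℚ) × ℕ) × ℕ) ≤ #Y := by
    refine le_trans ?_ hXY
    have h1 : #(X × ℚ) = #X := by
      rw [mk_prod, lift_id, lift_id, Cardinal.mkRat]
      exact mul_eq_left hX hX aleph0_ne_zero
    have h2 : Infinite (X × ℚ) := inferInstance
    rw [mk_prod, mk_prod, mk_finset_of_infinite, h1]
    simp only [lift_id, mk_nat]
    rw [mul_eq_left hX hX aleph0_ne_zero, mul_eq_left hX hX aleph0_ne_zero]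
  obtain ⟨ψ⟩ := (Cardinal.le_def _ _).1 hcard
  have hφ : ∀ i : Finset (X × ℚ) × ℕ, ∃ n : ℕ, ((ψ (i, n) : Y) : X) ∉ i.1.image Prod.fst := by
    intro i
    by_contra hcon
    push Not at hcon
    have h1 : (Set.range (fun n : ℕ => ((ψ (i, n) : Y) : X))).Infinite := by
      apply Set.infinite_range_of_injective
      intro m n hmn
      have h2 := ψ.injective (Subtype.ext hmn)
      exact (Prod.ext_iff.1 h2).2
    apply h1
    refine (i.1.image Prod.fst).finite_toSet.subset ?_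
    rintro _ ⟨n, rfl⟩
    exact hcon n
  choose ν hν using hφ
  set φ : Finset (X × ℚ) × ℕ → Y := fun i => ψ (i, ν i) with hφdef
  have hφinj : Function.Injective φ := by
    intro i j hij
    have h2 := ψ.injective hij
    exact (Prod.ext_iff.1 h2).1
  let inc : C(Y, X) := ⟨Subtype.val, continuous_subtype_val⟩
  -- the open sets in `C_p(Y)`
  let O : Finset (X × ℚ) × ℕ → Set C(Y, ℝ) := fun i =>
    {g | (∀ p ∈ i.1, ∀ hp : p.1 ∈ Y, |g ⟨p.1, hp⟩ - (p.2 : ℝ)| < 1 / ((i.2 : ℝ) + 1)) ∧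
      |g (φ i)| < 1}
  have hOopen : ∀ i, POpen (O i) := by
    intro i
    have h : O i = (fun f : C(Y, ℝ) => (f : Y → ℝ)) ⁻¹'
        ((⋂ p ∈ i.1, {g : Y → ℝ | ∀ hp : p.1 ∈ Y, |g ⟨p.1, hp⟩ - (p.2 : ℝ)|
          < 1 / ((i.2 : ℝ) + 1)}) ∩ {g : Y → ℝ | |g (φ i)| < 1}) := by
      ext g
      simp [O]
    rw [h]
    apply popen_preimage
    refine IsOpen.inter (isOpen_biInter_finset (fun p _ => ?_))
      (isOpen_lt (by fun_prop) continuous_const)
    by_cases hp : p.1 ∈ Y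
    · have h1 : {g : Y → ℝ | ∀ hp : p.1 ∈ Y, |g ⟨p.1, hp⟩ - (p.2 : ℝ)| < 1 / ((i.2 : ℝ) + 1)} =
          {g : Y → ℝ | |g ⟨p.1, hp⟩ - (p.2 : ℝ)| < 1 / ((i.2 : ℝ) + 1)} := by
        ext g
        exact ⟨fun h => h hp, fun h _ => h⟩
      rw [h1]
      exact isOpen_lt (by fun_prop) continuous_const
    · have h1 : {g : Y → ℝ | ∀ hp : p.1 ∈ Y, |g ⟨p.1, hp⟩ - (p.2 : ℝ)| < 1 / ((i.2 : ℝ) + 1)} =
          Set.univ := by
        ext g
        exact ⟨fun _ => trivial, fun _ h => absurd h hp⟩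
      rw [h1]
      exact isOpen_univ
  have hOne : ∀ i, (nb i : Set C(X, ℝ)).Nonempty → (O i).Nonempty := by
    rintro i ⟨f₀, hf₀⟩
    have hdisj : Disjoint ((i.1.image Prod.fst : Finset X) : Set X) {(φ i : X)} := by
      rw [Set.disjoint_singleton_right]
      exact hν i
    obtain ⟨e, he0, he1, -⟩ := exists_continuous_zero_one_of_isClosed
      (Finset.isClosed (i.1.image Prod.fst)) (isClosed_singleton (x := (φ i : X))) hdisj
    refine ⟨(f₀ + (-f₀ (φ i)) • e).comp inc, ?_, ?_⟩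
    · intro p hp hpY
      have h1 : e p.1 = 0 := he0 (Finset.mem_coe.2 (Finset.mem_image.2 ⟨p, hp, rfl⟩))
      have h2 : ((f₀ + (-f₀ (φ i)) • e).comp inc) ⟨p.1, hpY⟩ = f₀ p.1 := by
        show f₀ p.1 + (-f₀ (φ i)) * e p.1 = f₀ p.1
        rw [h1, mul_zero, add_zero]
      rw [h2]
      exact hf₀ p hp
    · have h1 : e (φ i) = 1 := he1 rfl
      have h2 : ((f₀ + (-f₀ (φ i)) • e).comp inc) (φ i) = 0 := by
        show f₀ (φ i) + (-f₀ (φ i)) * e (φ i) = 0
        rw [h1]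
        ring
      rw [h2, abs_zero]
      exact zero_lt_one
  have hB : ∀ i, ∃ B : Set C(Y, ℝ), (nb i : Set C(X, ℝ)).Nonempty → B ∈ 𝓑 ∧ B ⊆ O i := by
    intro i
    by_cases h : (nb i : Set C(X, ℝ)).Nonempty
    · obtain ⟨B, hB, hBO⟩ := hb2 (O i) (hOopen i) (hOne i h)
      exact ⟨B, fun _ => ⟨hB, hBO⟩⟩
    · exact ⟨∅, fun h' => absurd h' h⟩
  choose β hβ using hB
  let S : Finset (X × ℚ) × ℕ → Set C(X, ℝ) := fun i => nb i ∩ {f | f.comp inc ∈ β i}
  have hext : ∀ i, ∀ g ∈ O i, (nb i : Set C(X, ℝ)).Nonempty →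
      ∃ f ∈ (nb i : Set C(X, ℝ)), f.comp inc = g := by
    rintro i g hg ⟨f₀, hf₀⟩
    obtain ⟨g', hg'⟩ := ContinuousMap.exists_restrict_eq hY g
    let T : Finset X := (i.1.image Prod.fst).filter (fun x => x ∉ Y)
    have hdisj : Disjoint Y (T : Set X) := by
      rw [Set.disjoint_left]
      intro x hx hxT
      exact (Finset.mem_filter.1 (Finset.mem_coe.1 hxT)).2 hx
    obtain ⟨e, he0, he1, -⟩ := exists_continuous_zero_one_of_isClosed hY (Finset.isClosed T) hdisj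
    have hgY : ∀ x (hx : x ∈ Y), g' x = g ⟨x, hx⟩ := by
      intro x hx
      have h1 : (g'.restrict Y) ⟨x, hx⟩ = g ⟨x, hx⟩ := by rw [hg']
      exact h1
    refine ⟨g' + e * (f₀ - g'), ?_, ?_⟩
    · intro p hp
      by_cases hpY : p.1 ∈ Y
      · have h1 : e p.1 = 0 := he0 hpY
        have h2 : (g' + e * (f₀ - g')) p.1 = g ⟨p.1, hpY⟩ := by
          show g' p.1 + e p.1 * (f₀ p.1 - g' p.1) = g ⟨p.1, hpY⟩
          rw [h1, zero_mul, add_zero, hgY]
        rw [h2]
        exact hg.1 p hp hpY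
      · have h1 : e p.1 = 1 := he1 (Finset.mem_coe.2 (Finset.mem_filter.2
          ⟨Finset.mem_image.2 ⟨p, hp, rfl⟩, hpY⟩))
        have h2 : (g' + e * (f₀ - g')) p.1 = f₀ p.1 := by
          show g' p.1 + e p.1 * (f₀ p.1 - g' p.1) = f₀ p.1
          rw [h1]
          ring
        rw [h2]
        exact hf₀ p hp
    · ext y
      have h1 : e y = 0 := he0 y.2
      show g' y + e y * (f₀ y - g' y) = g y
      rw [h1, zero_mul, add_zero, hgY y y.2]
  refine ⟨{B | ∃ i, (nb i : Set C(X, ℝ)).Nonempty ∧ B = S i}, ?_, ?_, ?_⟩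
  · rintro B ⟨i, hi, rfl⟩
    refine ⟨(popen_nb i).inter ?_, ?_⟩
    · obtain ⟨W, hW, hWB⟩ := isOpen_induced_iff.1 (hb1 _ (hβ i hi).1).1
      have h1 : {f : C(X, ℝ) | f.comp inc ∈ β i} = (fun f : C(X, ℝ) => (f : X → ℝ)) ⁻¹'
          ((fun g : X → ℝ => fun y : Y => g y) ⁻¹' W) := by
        rw [← hWB]
        rfl
      rw [h1]
      apply popen_preimage
      exact hW.preimage (by fun_prop)
    · obtain ⟨g, hg⟩ := (hb1 _ (hβ i hi).1).2
      obtain ⟨f, hf, hfg⟩ := hext i g ((hβ i hi).2 hg) hi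
      exact ⟨f, hf, by show f.comp inc ∈ β i; rw [hfg]; exact hg⟩
  · intro U hU hn
    obtain ⟨i, hi, hiU⟩ := exists_nb hU hn
    exact ⟨S i, ⟨i, hi, rfl⟩, inter_subset_left.trans hiU⟩
  · intro f
    have h1 : {i | (nb i : Set C(X, ℝ)).Nonempty ∧ f ∈ S i}.Countable := by
      have h2 : {i | (nb i : Set C(X, ℝ)).Nonempty ∧ f ∈ S i} ⊆
          ⋃ B ∈ {B ∈ 𝓑 | f.comp inc ∈ B}, φ ⁻¹' {y : Y | ∀ g ∈ B, |g y| < 1} := by
        rintro i ⟨hi, hfi⟩
        refine mem_biUnion (show β i ∈ {B ∈ 𝓑 | f.comp inc ∈ B} from ⟨(hβ i hi).1, hfi.2⟩) ?_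
        intro g hg
        exact ((hβ i hi).2 hg).2
      refine Set.Countable.mono h2 ((hb3 (f.comp inc)).biUnion (fun B hB => ?_))
      exact ((finite_pinned (hb1 B hB.1).1 (hb1 B hB.1).2).preimage hφinj.injOn).countable
    refine (h1.image S).mono ?_
    rintro B ⟨⟨i, hi, rfl⟩, hfB⟩
    exact ⟨i, ⟨hi, hfB⟩, rfl⟩

end Pool.Agent.R828.CP
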